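import Pool.Agent.Helper80.RV.Defs

/-!
# RV5: a family adapted to a filtration
-/

set_option autoImplicit false
set_option linter.unusedSectionVars false

namespace Pool.Agent.SQ.RV

open NumberField Filter Module MvPolynomial

universe u v

section

variable {k : Type u} [Field k] {N q : ℕ}

/-- a finite independent set adapted to a filtration -/
private theorem adap58 {V : Type v} [AddCommGroup V] [Module k V] (K : ℕ) : ∀ (W : ℕ → Submodule k V), Antitone W →
    (∀ x, FiniteDimensional k (W x)) → ∃ (b : Finset V) (μ : V → ℕ), LinearIndepOn k id (b : Set V) ∧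
      (∀ x ∈ b, x ∈ W (μ x)) ∧ (∀ x ∈ b, μ x ≤ K) ∧ ∑ x ∈ Finset.range K, finrank k (W (x + 1)) ≤ ∑ x ∈ b, μ x := by
  classical
  induction K with
  | zero =>
    intro W _ _
    exact ⟨∅, fun _ => 0, by simp, by simp, by simp, by simp⟩
  | succ K ih =>
    intro W hW hfd
    obtain ⟨b', μ', hli, hmem, hbd, hsum⟩ := ih (fun x => W (x + 1)) (fun x y hxy => hW (by omega)) (fun x => hfd (x + 1))
    have hsub : (b' : Set V) ⊆ (W 1 : Set V) := fun x hx => hW (by omega : 1 ≤ μ' x + 1) (hmem x (Finset.mem_coe.1 hx))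
    obtain ⟨B, hB1, hB2, hB3, hB4⟩ := exists_linearIndepOn_id_extension hli hsub
    have hspan : Submodule.span k B = W 1 := le_antisymm (Submodule.span_le.2 hB1) hB3
    have hfin : B.Finite := by
      have h1 : FiniteDimensional k (Submodule.span k B) := by rw [hspan]; exact hfd 1
      have h2 : LinearIndependent k (fun x : B => (⟨(x : V), Submodule.subset_span x.2⟩ : Submodule.span k B)) := by
        refine LinearIndependent.of_comp (Submodule.span k B).subtype ?_
        exact hB4
      exact h2.finite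
    obtain ⟨b, rfl⟩ : ∃ b : Finset V, (b : Set V) = B := ⟨hfin.toFinset, hfin.coe_toFinset⟩
    have hbb : b' ⊆ b := by exact_mod_cast hB2
    have hcard : finrank k (W 1) = b.card := by
      rw [← hspan]
      exact finrank_span_finset_eq_card hB4
    refine ⟨b, fun x => if x ∈ b' then μ' x + 1 else 1, hB4, fun x hx => ?_, fun x _ => ?_, ?_⟩
    · dsimp only
      by_cases h : x ∈ b'
      · rw [if_pos h]; exact hmem x h
      · rw [if_neg h]; exact hB1 (Finset.mem_coe.2 hx)
    · dsimp only
      by_cases h : x ∈ b'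
      · rw [if_pos h]; exact Nat.succ_le_succ (hbd x h)
      · rw [if_neg h]; exact Nat.succ_le_succ (Nat.zero_le _)
    · have h1 : ∑ x ∈ b, (if x ∈ b' then μ' x + 1 else 1) = ∑ x ∈ b', μ' x + b.card := by
        rw [← Finset.sum_sdiff hbb, Finset.sum_congr rfl fun x hx => if_neg (Finset.mem_sdiff.1 hx).2,
          Finset.sum_congr rfl fun x hx => if_pos hx, Finset.sum_add_distrib, Finset.sum_const, Finset.sum_const,
          smul_eq_mul, smul_eq_mul, ← Finset.card_sdiff_add_card_eq_card hbb]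
        ring
      rw [h1, Finset.sum_range_succ', hcard]
      omega

/-- RL5: a family adapted to a filtration -/
theorem fam_exK (P : Ideal (MvPolynomial (Fin (N + 1)) k)) (F : ℕ → Ideal (MvPolynomial (Fin (N + 1)) k)) (hF : Antitone F)
    (m K : ℕ) : ∃ (R : ℕ) (μ : Fin R → ℕ) (p : Fin R → MvPolynomial (Fin (N + 1)) k), (∀ t, (p t).IsHomogeneous m) ∧
      (∀ t, p t ∈ F (μ t)) ∧ (∀ t, μ t ≤ K) ∧ LinearIndependent k (fun t => Ideal.Quotient.mk P (p t)) ∧
      ∑ x ∈ Finset.range K, dimf P (F (x + 1)) m ≤ ∑ t, μ t := by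
  classical
  have hfd0 : FiniteDimensional k (homogeneousSubmodule (Fin (N + 1)) k m) := Module.Finite.iff_fg.2 (homogeneousSubmodule_fg _ _ m)
  have hfd : ∀ x, FiniteDimensional k (frm P (F x) m) := by
    intro x
    unfold frm
    have : FiniteDimensional k (homogeneousSubmodule (Fin (N + 1)) k m ⊓ (F x).restrictScalars k : Submodule k _) :=
      Submodule.finiteDimensional_of_le (S₂ := homogeneousSubmodule (Fin (N + 1)) k m) inf_le_left
    infer_instance
  have hanti : Antitone fun x => frm P (F x) m := by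
    intro x y hxy
    unfold frm
    refine Submodule.map_mono (inf_le_inf le_rfl ?_)
    intro z hz
    exact hF hxy hz
  obtain ⟨b, μ, hli, hmem, hbd, hsum⟩ := adap58 (k := k) K (fun x => frm P (F x) m) hanti hfd
  have hrep : ∀ x ∈ b, ∃ p : MvPolynomial (Fin (N + 1)) k, p.IsHomogeneous m ∧ p ∈ F (μ x) ∧ Ideal.Quotient.mk P p = x := by
    intro x hx
    obtain ⟨p, hp, he⟩ := hmem x hx
    exact ⟨p, (mem_homogeneousSubmodule m p).1 hp.1, hp.2, he⟩
  choose! rep hr1 hr2 hr3 using hrep
  have e : Fin b.card ≃ b := b.equivFin.symm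
  refine ⟨b.card, fun t => μ (e t), fun t => rep (e t), fun t => hr1 _ (e t).2, fun t => hr2 _ (e t).2, fun t => hbd _ (e t).2, ?_, ?_⟩
  · have h1 : (fun t : Fin b.card => Ideal.Quotient.mk P (rep (e t))) = (fun x : b => (x : _ ⧸ P)) ∘ e := by
      funext t
      exact hr3 _ (e t).2
    rw [h1]
    exact LinearIndependent.comp hli e e.injective
  · refine hsum.trans (le_of_eq ?_)
    rw [← Finset.sum_coe_sort b μ]
    exact (Equiv.sum_comp e (fun x : b => μ x)).symm

/-- RV5: a family adapted to a filtration -/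
theorem fam_ex (P : Ideal (MvPolynomial (Fin (N + 1)) k)) (F : ℕ → Ideal (MvPolynomial (Fin (N + 1)) k)) (hF : Antitone F)
    (m K : ℕ) : ∃ (R : ℕ) (μ : Fin R → ℕ) (p : Fin R → MvPolynomial (Fin (N + 1)) k), (∀ t, (p t).IsHomogeneous m) ∧
      (∀ t, p t ∈ F (μ t)) ∧ LinearIndependent k (fun t => Ideal.Quotient.mk P (p t)) ∧
      ∑ x ∈ Finset.range K, dimf P (F (x + 1)) m ≤ ∑ t, μ t := by
  obtain ⟨R, μ, p, h1, h2, _, h4, h5⟩ := fam_exK P F hF m K
  exact ⟨R, μ, p, h1, h2, h4, h5⟩

end

end Pool.Agent.SQ.RV
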